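import Mathlib

/-!
# The combinatorial construction for MP_4f2529_ag

`T` is a numerical semigroup with Frobenius number `F ≥ 1`. We construct a set `A` of degrees with
maximum `d` and the semigroup `T'` such that the semigroup generated by the `(a, d - a)`, `a ∈ A`, is
`{(x, y) : x ∈ T, y ∈ T', d ∣ x + y}`, and determine the maximal elements of its Apery set.
-/

set_option autoImplicit false

namespace Pool.Agent.R942.MC

/-- The natural pseudo-Frobenius numbers. -/
def PFn (T : AddSubmonoid ℕ) (x : ℕ) : Prop := x ∉ T ∧ ∀ s ∈ T, s ≠ 0 → x + s ∈ T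

/-- The data: a numerical semigroup `T ≠ ℕ`, its largest gap `F`, and its smallest
pseudo-Frobenius number `f1`. -/
structure Data where
  T : AddSubmonoid ℕ
  F : ℕ
  hF : F ∉ T
  hF' : ∀ x, F < x → x ∈ T
  f1 : ℕ
  hf1 : PFn T f1
  hf1' : ∀ f, PFn T f → f1 ≤ f

namespace Data

variable (D : Data)

def N : ℕ := D.F + 1

def L : ℕ := 10 * (D.N * D.N)

def d : ℕ := 2 * D.L + 1 - D.f1

def X (g : ℕ) : ℕ := D.L + 3 * (D.N * (1 + g))

/-- The gaps that are not pseudo-Frobenius numbers. -/
def G (g : ℕ) : Prop := g ∉ D.T ∧ ¬ PFn D.T g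

def Hole (z : ℕ) : Prop := ∃ g f, D.G g ∧ PFn D.T f ∧ z + D.X g = D.d + f

def Y (x : ℕ) : Prop :=
  (x ∈ D.T ∧ 0 < x ∧ x ≤ D.L ∧ ¬ D.Hole x) ∨ ∃ g, D.G g ∧ x = D.X g

/-- The set of degrees. -/
def A (x : ℕ) : Prop := x = 0 ∨ x = D.d ∨ D.Y x

/-- The semigroup of the second chart. -/
def T' (y : ℕ) : Prop := y = 0 ∨ D.d ≤ y ∨ ∃ r, (D.Y r ∨ D.G r) ∧ r + y = D.d

variable {D}

lemma le_F {g : ℕ} (hg : g ∉ D.T) : g ≤ D.F := by
  by_contra h
  exact hg (D.hF' g (by omega))

lemma pos_of {g : ℕ} (hg : g ∉ D.T) : 0 < g := by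
  rcases Nat.eq_zero_or_pos g with h | h
  · exact absurd (h ▸ D.T.zero_mem) hg
  · exact h

lemma F_pos : 0 < D.F := pos_of D.hF

lemma PF_F : PFn D.T D.F := ⟨D.hF, fun s _ hs => D.hF' _ (by omega)⟩

lemma f1_pos : 0 < D.f1 := pos_of D.hf1.1

lemma f1_le : D.f1 ≤ D.F := D.hf1' _ PF_F

lemma G_lt {g : ℕ} (hg : D.G g) : g < D.F := by
  rcases lt_or_eq_of_le (le_F hg.1) with h | h
  · exact h
  · exact absurd (h ▸ PF_F) hg.2

lemma Nmul {g : ℕ} (hg : D.G g) : D.N * (1 + g) + D.N ≤ D.N * D.N := by
  have h := G_lt hg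
  have h1 : 1 + g + 1 ≤ D.N := by unfold N; omega
  calc D.N * (1 + g) + D.N = D.N * (1 + g + 1) := by ring
    _ ≤ D.N * D.N := Nat.mul_le_mul_left _ h1

lemma Nmul' (g : ℕ) : D.N ≤ D.N * (1 + g) := Nat.le_mul_of_pos_right _ (by omega)

lemma NN : 2 * D.N ≤ D.N * D.N := Nat.mul_le_mul_right _ (by have := D.F_pos; unfold N; omega)

/-- all gaps are non-holes: holes are large -/
lemma hole_bounds {z : ℕ} (hz : D.Hole z) :
    D.L ≤ z + 3 * (D.N * D.N) ∧ z + 2 * D.N ≤ D.L := by
  obtain ⟨g, f, hg, hf, h⟩ := hz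
  have h1 := Nmul hg
  have h2 := D.Nmul' g
  have h3 := le_F hf.1
  have h4 := D.hf1' f hf
  have h5 : D.N = D.F + 1 := rfl
  have h6 := D.f1_le
  have h7 := D.NN
  unfold X d L at *
  constructor <;> omega

lemma hole_sub {z : ℕ} (hz : D.Hole z) (hz' : D.Hole (z + D.N)) : False := by
  obtain ⟨g, f, hg, hf, h⟩ := hz
  obtain ⟨g', f', hg', hf', h'⟩ := hz'
  have h3 := le_F hf.1
  have h3' := le_F hf'.1
  have h5 : D.N = D.F + 1 := rfl
  unfold X at h h'
  rcases lt_trichotomy g g' with hh | hh | hh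
  · have : D.N * (1 + g) + D.N ≤ D.N * (1 + g') := by
      calc D.N * (1 + g) + D.N = D.N * (1 + g + 1) := by ring
        _ ≤ _ := Nat.mul_le_mul_left _ (by omega)
    omega
  · subst hh
    omega
  · have : D.N * (1 + g') + D.N ≤ D.N * (1 + g) := by
      calc D.N * (1 + g') + D.N = D.N * (1 + g' + 1) := by ring
        _ ≤ _ := Nat.mul_le_mul_left _ (by omega)
    omega

lemma X_bounds {g : ℕ} (hg : D.G g) :
    D.L + 3 * D.N ≤ D.X g ∧ D.X g + 3 * D.N ≤ D.L + 3 * (D.N * D.N) := by
  have h1 := Nmul hg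
  have h2 := D.Nmul' g
  unfold X
  omega

lemma X_sep {g g' : ℕ} (h : g ≠ g') : D.X g + 3 * D.N ≤ D.X g' ∨ D.X g' + 3 * D.N ≤ D.X g := by
  unfold X
  rcases lt_or_gt_of_ne h with hh | hh
  · left
    have : D.N * (1 + g) + D.N ≤ D.N * (1 + g') := by
      calc D.N * (1 + g) + D.N = D.N * (1 + g + 1) := by ring
        _ ≤ _ := Nat.mul_le_mul_left _ (by omega)
    omega
  · right
    have : D.N * (1 + g') + D.N ≤ D.N * (1 + g) := by
      calc D.N * (1 + g') + D.N = D.N * (1 + g' + 1) := by ring
        _ ≤ _ := Nat.mul_le_mul_left _ (by omega)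
    omega

lemma d_eq : D.d + D.f1 = 2 * D.L + 1 := by
  have := D.f1_le
  have := D.NN
  have h5 : D.N = D.F + 1 := rfl
  unfold d L
  omega

lemma L_eq : D.L = 10 * (D.N * D.N) := rfl

lemma N_eq : D.N = D.F + 1 := rfl

lemma Y_pos {x : ℕ} (hx : D.Y x) : 0 < x := by
  rcases hx with h | ⟨g, hg, rfl⟩
  · exact h.2.1
  · have := X_bounds hg
    have := D.NN
    have := D.L_eq
    have := D.N_eq
    omega

lemma Y_lt {x : ℕ} (hx : D.Y x) : x + 2 * D.N < D.d := by
  have h1 := D.d_eq
  have h2 := D.f1_le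
  have h3 := D.NN
  have h4 := D.L_eq
  have h5 := D.N_eq
  rcases hx with h | ⟨g, hg, rfl⟩
  · have := h.2.2.1
    omega
  · have := X_bounds hg
    omega

lemma Y_T {x : ℕ} (hx : D.Y x) : x ∈ D.T := by
  rcases hx with h | ⟨g, hg, rfl⟩
  · exact h.1
  · have := X_bounds hg
    have := D.N_eq
    exact D.hF' _ (by omega)

lemma d_T : D.d ∈ D.T := by
  have h1 := D.d_eq
  have h2 := D.f1_le
  have h3 := D.NN
  have h4 := D.L_eq
  have h5 := D.N_eq
  exact D.hF' _ (by omega)

lemma Y_small {x : ℕ} (hx : x ∈ D.T) (h0 : 0 < x) (h : x ≤ 3 * D.N) : D.Y x := by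
  have h3 := D.NN
  have h4 := D.L_eq
  have h5 := D.N_eq
  refine Or.inl ⟨hx, h0, by omega, fun hh => ?_⟩
  have := (hole_bounds hh).1
  omega

lemma Y_mid {x : ℕ} (h1 : D.F < x) (h2 : x ≤ D.L) (h : ¬ D.Hole x) : D.Y x :=
  Or.inl ⟨D.hF' _ h1, by omega, h2, h⟩

lemma Y_near {x : ℕ} (h1 : D.L < x + 2 * D.N) (h2 : x ≤ D.L) : D.Y x := by
  have h3 := D.NN
  have h4 := D.L_eq
  have h5 := D.N_eq
  refine Y_mid (by omega) h2 fun hh => ?_
  have := (hole_bounds hh).2
  omega

/-- **closedness** -/
lemma star {r r' z : ℕ} (hr : D.Y r ∨ D.G r) (hr' : D.Y r' ∨ D.G r') (h : r + r' = D.d + z)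
    (hz : 0 < z) : D.Y z ∨ D.G z := by
  have h1 := D.d_eq
  have h2 := D.f1_le
  have h3 := D.NN
  have h4 := D.L_eq
  have h5 := D.N_eq
  -- small elements
  have key : z ≤ 6 * (D.N * D.N) → ¬ PFn D.T z → D.Y z ∨ D.G z := by
    intro hz1 hz2
    by_cases hzT : z ∈ D.T
    · left
      refine Or.inl ⟨hzT, hz, by omega, fun hh => ?_⟩
      have := (hole_bounds hh).1
      omega
    · exact Or.inr ⟨hzT, hz2⟩
  have aux : ∀ {r r' : ℕ}, (D.Y r ∨ D.G r) → r + r' = D.d + z → D.L < r' → (∃ g, D.G g ∧ r' = D.X g) →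
      D.Y z ∨ D.G z := by
    rintro r r' hr h hr' ⟨g, hg, rfl⟩
    have hX := X_bounds hg
    by_cases hzL : z ≤ 6 * (D.N * D.N)
    · refine key hzL fun hpf => ?_
      -- `r` is a hole
      have hh : D.Hole r := ⟨g, z, hg, hpf, h⟩
      have hb := hole_bounds hh
      rcases hr with (h' | ⟨g', hg', rfl⟩) | h'
      · exact h'.2.2.2 hh
      · have := X_bounds hg'
        omega
      · have := G_lt h'
        omega
    · -- impossible: z would be too large
      exfalso
      rcases hr with (h' | ⟨g', hg', rfl⟩) | h'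
      · have := h'.2.2.1
        omega
      · have := X_bounds hg'
        omega
      · have := G_lt h'
        omega
  rcases hr with (hr | ⟨g, hg, rfl⟩) | hr
  · rcases hr' with (hr' | ⟨g', hg', rfl⟩) | hr'
    · refine key ?_ fun hpf => ?_
      · have := hr.2.2.1
        have := hr'.2.2.1
        omega
      · have := hr.2.2.1
        have := hr'.2.2.1
        have := D.hf1' _ hpf
        omega
    · have := X_bounds hg'
      exact aux (Or.inl (Or.inl hr)) h (by omega) ⟨g', hg', rfl⟩
    · have := hr.2.2.1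
      have := G_lt hr'
      omega
  · have := X_bounds hg
    exact aux hr' (by rw [add_comm]; exact h) (by omega) ⟨g, hg, rfl⟩
  · rcases hr' with (hr' | ⟨g', hg', rfl⟩) | hr'
    · have := hr'.2.2.1
      have := G_lt hr
      omega
    · have := X_bounds hg'
      exact aux (Or.inr hr) h (by omega) ⟨g', hg', rfl⟩
    · have := G_lt hr
      have := G_lt hr'
      omega

lemma T'_add {y y' : ℕ} (h : D.T' y) (h' : D.T' y') : D.T' (y + y') := by
  rcases h with rfl | h | ⟨r, hr, h⟩
  · simpa using h'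
  · exact Or.inr (Or.inl (by omega))
  · rcases h' with rfl | h' | ⟨r', hr', h'⟩
    · exact Or.inr (Or.inr ⟨r, hr, h⟩)
    · exact Or.inr (Or.inl (by omega))
    · by_cases hle : r + r' ≤ D.d
      · exact Or.inr (Or.inl (by omega))
      · refine Or.inr (Or.inr ⟨r + r' - D.d, star hr hr' (by omega) (by omega), ?_⟩)
        have : r ≤ D.d := by omega
        have : r' ≤ D.d := by omega
        omega

/-- all elements of `T` less than `d` that are not in `Y` are sums of two elements of `Y` -/
lemma sum_two {r : ℕ} (hr : r ∈ D.T) (h0 : 0 < r) (hd : r < D.d) (hY : ¬ D.Y r) :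
    ∃ a b, D.Y a ∧ D.Y b ∧ r = a + b := by
  have h1 := D.d_eq
  have h2 := D.f1_le
  have h2' := D.f1_pos
  have h3 := D.NN
  have h4 := D.L_eq
  have h5 := D.N_eq
  by_cases hL : r ≤ D.L
  · -- a hole
    have hh : D.Hole r := by
      by_contra hh
      exact hY (Or.inl ⟨hr, h0, hL, hh⟩)
    have hb := hole_bounds hh
    refine ⟨D.N, r - D.N, Y_small (D.hF' _ (by omega)) (by omega) (by omega), ?_, by omega⟩
    refine Y_mid (by omega) (by omega) fun hh' => ?_
    exact hole_sub hh' (by rwa [Nat.sub_add_cancel (by omega)])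
  · by_cases hgood : D.Y (r - D.L)
    · exact ⟨D.L, r - D.L, Y_near (by omega) le_rfl, hgood, by omega⟩
    · have hlt : r + D.N ≤ 2 * D.L := by
        by_contra hc
        exact hgood (Y_near (by omega) (by omega))
      refine ⟨D.L - D.N, r - D.L + D.N, Y_near (by omega) (by omega), ?_, by omega⟩
      refine Y_mid (by omega) (by omega) fun hh' => ?_
      by_cases hF : D.F < r - D.L
      · have hh : D.Hole (r - D.L) := by
          by_contra hh
          exact hgood (Y_mid hF (by omega) hh)
        exact hole_sub hh hh'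
      · have := (hole_bounds hh').1
        omega

/-- **generation** -/
lemma gen {x y m : ℕ} (hx : x ∈ D.T) (hy : D.T' y) (hm : x + y = (m + 1) * D.d) :
    ∃ a, D.A a ∧ a ≤ x ∧ D.d - a ≤ y ∧ a ≤ D.d ∧ x - a ∈ D.T ∧ D.T' (y - (D.d - a)) := by
  have h1 := D.d_eq
  have h2 := D.f1_le
  have h2' := D.f1_pos
  have h3 := D.NN
  have h4 := D.L_eq
  have h5 := D.N_eq
  have hm' : x + y = m * D.d + D.d := by rw [hm]; ring
  have hmT : m * D.d ∈ D.T := by
    rw [← smul_eq_mul]; exact D.T.nsmul_mem D.d_T m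
  rcases hy with rfl | hy | ⟨r, hr, hy⟩
  · refine ⟨D.d, Or.inr (Or.inl rfl), by omega, by omega, le_rfl, ?_, Or.inl (by omega)⟩
    have : x - D.d = m * D.d := by omega
    rw [this]; exact hmT
  · by_cases hyd : D.T' (y - D.d)
    · exact ⟨0, Or.inl rfl, by omega, by omega, by omega, by simpa using hx, by simpa using hyd⟩
    · -- `0 < y - d < d`
      have hy0 : y - D.d ≠ 0 := fun h => hyd (Or.inl h)
      have hy1 : ¬ D.d ≤ y - D.d := fun h => hyd (Or.inr (Or.inl h))
      obtain ⟨r, hrdef⟩ : ∃ r, r + y = 2 * D.d := ⟨2 * D.d - y, by omega⟩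
      have hr1 : ¬ D.Y r := fun h => hyd (Or.inr (Or.inr ⟨r, Or.inl h, by omega⟩))
      have hr2 : ¬ D.G r := fun h => hyd (Or.inr (Or.inr ⟨r, Or.inr h, by omega⟩))
      rcases m with _ | m
      · simp at hm'
        omega
      have hmx : x = m * D.d + r := by
        have : (m + 1) * D.d = m * D.d + D.d := by ring
        omega
      have hmT' : m * D.d ∈ D.T := by
        rw [← smul_eq_mul]; exact D.T.nsmul_mem D.d_T m
      by_cases hcase : r ∈ D.T
      · obtain ⟨a, b, ha, hb, hab⟩ := sum_two hcase (by omega) (by omega) hr1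
        have hal := Y_lt ha
        have hbl := Y_lt hb
        refine ⟨a, Or.inr (Or.inr ha), by omega, by omega, by omega, ?_, ?_⟩
        · have : x - a = m * D.d + b := by omega
          rw [this]
          exact D.T.add_mem hmT' (Y_T hb)
        · exact Or.inr (Or.inr ⟨b, Or.inl hb, by omega⟩)
      · have hrF := le_F hcase
        rcases m with _ | m
        · rw [hmx] at hx
          simp at hx
          exact absurd hx hcase
        · have hmm : (m + 1) * D.d = m * D.d + D.d := by ring
          refine ⟨D.L, Or.inr (Or.inr (Y_near (by omega) le_rfl)), by omega, by omega, by omega,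
            D.hF' _ (by omega), Or.inr (Or.inl (by omega))⟩
  · rcases hr with hr | hr
    · rcases m with _ | m
      · refine ⟨r, Or.inr (Or.inr hr), by omega, by omega, by omega, ?_, Or.inl (by omega)⟩
        have : x - r = 0 := by omega
        rw [this]; exact D.T.zero_mem
      · have hmm : (m + 1) * D.d = m * D.d + D.d := by ring
        refine ⟨D.d, Or.inr (Or.inl rfl), by omega, by omega, le_rfl, ?_, ?_⟩
        · have : x - D.d = m * D.d + r := by omega
          rw [this]
          refine D.T.add_mem ?_ (Y_T hr)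
          rw [← smul_eq_mul]; exact D.T.nsmul_mem D.d_T m
        · exact Or.inr (Or.inr ⟨r, Or.inl hr, by omega⟩)
    · have hrF := G_lt hr
      rcases m with _ | m
      · have : x = r := by omega
        exact absurd (this ▸ hx) hr.1
      · have hmm : (m + 1) * D.d = m * D.d + D.d := by ring
        rcases m with _ | m
        · have hX := X_bounds hr
          have hb : D.Y (D.d + r - D.X r) := by
            refine Y_mid (by omega) (by omega) fun hh => ?_
            obtain ⟨g', f, hg', hf, h⟩ := hh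
            have hfF := le_F hf.1
            by_cases hgg : g' = r
            · subst hgg
              have : f = g' := by omega
              exact hr.2 (this ▸ hf)
            · have := D.X_sep hgg
              omega
          refine ⟨D.X r, Or.inr (Or.inr (Or.inr ⟨r, hr, rfl⟩)), by omega, by omega, by omega, ?_, ?_⟩
          · have : x - D.X r = D.d + r - D.X r := by omega
            rw [this]; exact Y_T hb
          · exact Or.inr (Or.inr ⟨_, Or.inl hb, by omega⟩)
        · have hmm' : (m + 1) * D.d = m * D.d + D.d := by ring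
          refine ⟨D.d, Or.inr (Or.inl rfl), by omega, by omega, le_rfl, D.hF' _ (by omega), ?_⟩
          exact Or.inr (Or.inr ⟨r, Or.inr hr, by omega⟩)

/-- The semigroup of the curve: `u^x v^y` is in the coordinate ring. -/
def S (D : Data) (x y : ℕ) : Prop := x ∈ D.T ∧ D.T' y ∧ ∃ m, x + y = m * D.d

/-- The exponents in the ideal generated by `v^d` and `u^d`. -/
def J (D : Data) (x y : ℕ) : Prop := (D.d ≤ y ∧ D.S x (y - D.d)) ∨ (D.d ≤ x ∧ D.S (x - D.d) y)

/-- the element of the socle defined by a pseudo-Frobenius number -/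
def soc (D : Data) (x y : ℕ) : Prop := ∃ f, PFn D.T f ∧ x = D.d + f ∧ y + f = 2 * D.d

lemma not_T'_sub {f : ℕ} (hf : PFn D.T f) : ¬ D.T' (D.d - f) := by
  have h1 := D.d_eq
  have h2 := D.f1_le
  have h3 := D.NN
  have h4 := D.L_eq
  have h5 := D.N_eq
  have hF := le_F hf.1
  have h0 := pos_of hf.1
  rintro (h | h | ⟨r, hr, h⟩)
  · omega
  · omega
  · have : r = f := by omega
    subst this
    rcases hr with hr | hr
    · exact hf.1 (Y_T hr)
    · exact hr.2 hf

lemma d_pos : 0 < D.d := by
  have h1 := D.d_eq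
  have h2 := D.f1_le
  have h3 := D.NN
  have h4 := D.L_eq
  have h5 := D.N_eq
  omega

lemma soc_S {x y : ℕ} (h : D.soc x y) : D.S x y := by
  obtain ⟨f, hf, rfl, h⟩ := h
  have h1 := D.d_eq
  have h2 := D.f1_le
  have h3 := D.NN
  have h4 := D.L_eq
  have h5 := D.N_eq
  have hF := le_F hf.1
  exact ⟨D.hF' _ (by omega), Or.inr (Or.inl (by omega)), 3, by omega⟩

lemma soc_not_J {x y : ℕ} (h : D.soc x y) : ¬ D.J x y := by
  obtain ⟨f, hf, rfl, h⟩ := h
  have h1 := D.d_eq
  have h2 := D.f1_le
  have h3 := D.NN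
  have h4 := D.L_eq
  have h5 := D.N_eq
  have hF := le_F hf.1
  rintro (⟨h1, h2⟩ | ⟨h1, h2⟩)
  · have : y - D.d = D.d - f := by omega
    exact not_T'_sub hf (this ▸ h2.2.1)
  · have : D.d + f - D.d = f := by omega
    exact hf.1 (this ▸ h2.1)

lemma soc_mul {x y a : ℕ} (h : D.soc x y) (ha : D.A a) : D.J (x + a) (y + (D.d - a)) := by
  obtain ⟨m, hm⟩ := (soc_S h).2.2
  have hS := soc_S h
  obtain ⟨f, hf, rfl, h⟩ := h
  have h1 := D.d_eq
  have h2 := D.f1_le
  have h3 := D.NN
  have h4 := D.L_eq
  have h5 := D.N_eq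
  have hF := le_F hf.1
  rcases ha with rfl | rfl | ha
  · left
    refine ⟨by omega, ?_⟩
    simpa using hS
  · right
    refine ⟨by omega, ?_⟩
    simpa using hS
  · right
    have hal := Y_lt ha
    refine ⟨by omega, ?_, ?_, 3, by omega⟩
    · have : D.d + f + a - D.d = f + a := by omega
      rw [this]
      exact hf.2 a (Y_T ha) (Y_pos ha).ne'
    · exact Or.inr (Or.inl (by omega))

/-- **duality** -/
lemma compl {x y : ℕ} (h : D.S x y) (hJ : ¬ D.J x y) : D.soc x y ∨
    ∃ f, PFn D.T f ∧ x ≤ D.d + f ∧ y + f ≤ 2 * D.d ∧ x + y < 3 * D.d ∧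
      D.d + f - x ∈ D.T ∧ D.T' (2 * D.d - f - y) := by
  obtain ⟨hx, hy, m, hm⟩ := h
  have h1 := D.d_eq
  have h2 := D.f1_le
  have h2' := D.f1_pos
  have h3 := D.NN
  have h4 := D.L_eq
  have h5 := D.N_eq
  have hd := D.d_pos
  have hJ1 : ∀ m', x + y = (m' + 1) * D.d → D.d ≤ y → ¬ D.T' (y - D.d) := by
    intro m' hm' hy1 hy2
    refine hJ (Or.inl ⟨hy1, hx, hy2, m', ?_⟩)
    have : (m' + 1) * D.d = m' * D.d + D.d := by ring
    omega
  have hJ2 : ∀ m', x + y = (m' + 1) * D.d → D.d ≤ x → x - D.d ∉ D.T := by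
    intro m' hm' hy1 hy2
    refine hJ (Or.inr ⟨hy1, hy2, hy, m', ?_⟩)
    have : (m' + 1) * D.d = m' * D.d + D.d := by ring
    omega
  -- the case of (0, 0)
  rcases m with _ | m
  · right
    have hx0 : x = 0 := by omega
    have hy0 : y = 0 := by omega
    subst hx0 hy0
    refine ⟨D.f1, D.hf1, by omega, by omega, by omega, ?_, Or.inr (Or.inl (by omega))⟩
    exact D.hF' _ (by omega)
  replace hJ1 := hJ1 m hm
  replace hJ2 := hJ2 m hm
  have hm' : x + y = m * D.d + D.d := by rw [hm]; ring
  -- `x < d + N`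
  have hxd : x < D.d + D.N := by
    by_contra hc
    exact hJ2 (by omega) (D.hF' _ (by omega))
  have hy2d : y < 2 * D.d := by
    by_contra hc
    exact hJ1 (by omega) (Or.inr (Or.inl (by omega)))
  -- hence `m ≤ 2`
  have hm2 : m ≤ 2 := by
    by_contra hc
    obtain ⟨m', rfl⟩ : ∃ m', m = m' + 3 := ⟨m - 3, by omega⟩
    have : (m' + 3) * D.d = m' * D.d + 3 * D.d := by ring
    omega
  by_cases hxd' : D.d ≤ x
  · -- `x = d + g`, `g` a gap
    obtain ⟨g, rfl⟩ : ∃ g, x = D.d + g := ⟨x - D.d, by omega⟩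
    have hg : g ∉ D.T := by
      have := hJ2 hxd'
      simpa using this
    have hgF := le_F hg
    have hg0 := pos_of hg
    by_cases hpf : PFn D.T g
    · -- then `m = 2`
      left
      refine ⟨g, hpf, rfl, ?_⟩
      interval_cases m
      · omega
      · exfalso
        have : y = D.d - g := by omega
        exact not_T'_sub hpf (this ▸ hy)
      · omega
    · right
      -- `f - g ∈ T`
      obtain ⟨f, hf, hfg⟩ : ∃ f, PFn D.T f ∧ ∃ s ∈ D.T, f = g + s := by
        by_contra hc
        push Not at hc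
        -- take the largest gap of the form `g + s`
        have hex : ∀ n, ∃ s ∈ D.T, g + s ∉ D.T ∧ n ≤ s := by
          intro n
          induction n with
          | zero => exact ⟨0, D.T.zero_mem, by simpa using hg, le_rfl⟩
          | succ n ih =>
            obtain ⟨s, hs, hgs, hn⟩ := ih
            have hnpf : ¬ PFn D.T (g + s) := fun h => hc _ h s hs rfl
            have : ∃ s' ∈ D.T, s' ≠ 0 ∧ g + s + s' ∉ D.T := by
              by_contra hc'
              push Not at hc'
              exact hnpf ⟨hgs, hc'⟩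
            obtain ⟨s', hs', hs0, hh⟩ := this
            exact ⟨s + s', D.T.add_mem hs hs', by rwa [← add_assoc], by omega⟩
        obtain ⟨s, _, hs, hn⟩ := hex (D.F + 1)
        exact hs (D.hF' _ (by omega))
      obtain ⟨s, hs, rfl⟩ := hfg
      have hs0 : s ≠ 0 := by
        rintro rfl
        exact hpf (by simpa using hf)
      have hfF := le_F hf.1
      have hYs : D.Y s := Y_small hs (by omega) (by omega)
      have hy1 : ¬ D.d < y := by
        intro hc
        refine hJ1 (by omega) (Or.inr (Or.inr ⟨g, Or.inr ⟨hg, hpf⟩, ?_⟩))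
        interval_cases m <;> omega
      have hyg : y + g = D.d := by
        interval_cases m <;> omega
      refine ⟨g + s, hf, by omega, by omega, by omega, ?_, ?_⟩
      · have : D.d + (g + s) - (D.d + g) = s := by omega
        rw [this]; exact hs
      · exact Or.inr (Or.inr ⟨s, Or.inl hYs, by omega⟩)
  · right
    by_cases hYx : D.Y x
    · -- `y = d - x`
      have hYl := Y_lt hYx
      have hyx : y + x = D.d := by
        interval_cases m
        · omega
        · exfalso
          exact hJ1 (by omega) (Or.inr (Or.inr ⟨x, Or.inl hYx, by omega⟩))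
        · omega
      by_cases hlt : x < D.f1
      · refine ⟨D.f1, D.hf1, by omega, by omega, by omega, D.hF' _ (by omega), ?_⟩
        refine Or.inr (Or.inr ⟨D.f1 - x, Or.inr ⟨fun hT => ?_, fun hpf => ?_⟩, by omega⟩)
        · have : D.f1 = (D.f1 - x) + x := by omega
          exact D.hf1.1 (this ▸ D.T.add_mem hT (Y_T hYx))
        · have := D.hf1' _ hpf
          have := Y_pos hYx
          omega
      · have hne : x ≠ D.f1 := by
          rintro rfl
          exact D.hf1.1 (Y_T hYx)
        refine ⟨D.f1, D.hf1, by omega, by omega, by omega, D.hF' _ (by omega), ?_⟩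
        exact Or.inr (Or.inl (by omega))
    · -- `F < x`
      have hxF : D.F < x := by
        by_contra hc
        by_cases hx0 : x = 0
        · subst hx0
          interval_cases m
          · exact hJ1 (by omega) (Or.inl (by omega))
          · omega
          · omega
        · exact hYx (Y_small hx (by omega) (by omega))
      -- it is enough to find `f` with `d + f - x ∈ Y`
      have hm1 : x + y = 2 * D.d := by
        interval_cases m
        · exfalso
          rcases hy with h | h | ⟨r, hr, h⟩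
          · omega
          · omega
          · have : r = x := by omega
            subst this
            rcases hr with hr | hr
            · exact hYx hr
            · exact hr.1 hx
        · omega
        · omega
      suffices h : ∃ f, PFn D.T f ∧ x ≤ D.d + f ∧ D.Y (D.d + f - x) by
        obtain ⟨f, hf, hxf, hYf⟩ := h
        have hfF := le_F hf.1
        refine ⟨f, hf, hxf, by omega, by omega, Y_T hYf, ?_⟩
        exact Or.inr (Or.inr ⟨_, Or.inl hYf, by omega⟩)
      by_cases hxL : x ≤ D.L
      · have hh : D.Hole x := by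
          by_contra hh
          exact hYx (Y_mid hxF hxL hh)
        obtain ⟨g, f, hg, hf, h⟩ := hh
        have hfF := le_F hf.1
        refine ⟨f, hf, by omega, ?_⟩
        have : D.d + f - x = D.X g := by omega
        rw [this]
        exact Or.inr ⟨g, hg, rfl⟩
      · by_cases hc1 : D.d + D.f1 - x + 2 * D.N > D.L
        · refine ⟨D.f1, D.hf1, by omega, Y_near (by omega) (by omega)⟩
        · by_cases hh : D.Hole (D.d + D.F - x)
          · -- then `f1` works
            refine ⟨D.f1, D.hf1, by omega, ?_⟩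
            have hb := hole_bounds hh
            obtain ⟨g, f, hg, hf, h⟩ := hh
            have hfF := le_F hf.1
            have hf1 := D.hf1' _ hf
            refine Y_mid (by omega) (by omega) fun hh' => ?_
            obtain ⟨g', f', hg', hf', h'⟩ := hh'
            have hfF' := le_F hf'.1
            have hf1' := D.hf1' _ hf'
            by_cases hgg : g' = g
            · subst hgg
              have : f + D.f1 = f' + D.F := by omega
              have hfF'' : f = D.F := by omega
              subst hfF''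
              have : x = D.X g' := by omega
              exact hYx (Or.inr ⟨g', hg', this⟩)
            · have := D.X_sep hgg
              omega
          · refine ⟨D.F, PF_F, by omega, Y_mid (by omega) (by omega) hh⟩

lemma S_zero : D.S 0 0 := ⟨D.T.zero_mem, Or.inl rfl, 0, by simp⟩

lemma S_add {x y x' y' : ℕ} (h : D.S x y) (h' : D.S x' y') : D.S (x + x') (y + y') := by
  obtain ⟨h1, h2, m, h3⟩ := h
  obtain ⟨h1', h2', m', h3'⟩ := h'
  refine ⟨D.T.add_mem h1 h1', T'_add h2 h2', m + m', ?_⟩
  rw [add_mul, ← h3, ← h3']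
  omega

lemma J_add {x y x' y' : ℕ} (h : D.J x y) (h' : D.S x' y') : D.J (x + x') (y + y') := by
  rcases h with ⟨h1, h2⟩ | ⟨h1, h2⟩
  · left
    refine ⟨by omega, ?_⟩
    have := S_add h2 h'
    rwa [show y - D.d + y' = y + y' - D.d by omega] at this
  · right
    refine ⟨by omega, ?_⟩
    have := S_add h2 h'
    rwa [show x - D.d + x' = x + x' - D.d by omega] at this

lemma S_A {a : ℕ} (ha : D.A a) : D.S a (D.d - a) := by
  have h0 := D.d_pos
  rcases ha with rfl | rfl | ha
  · exact ⟨D.T.zero_mem, Or.inr (Or.inl (by omega)), 1, by omega⟩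
  · exact ⟨D.d_T, Or.inl (by omega), 1, by omega⟩
  · have := Y_lt ha
    exact ⟨Y_T ha, Or.inr (Or.inr ⟨a, Or.inl ha, by omega⟩), 1, by omega⟩

/-- `S` is generated by the `(a, d - a)`. -/
lemma mem_closure {x y : ℕ} : D.S x y ↔
    (x, y) ∈ AddSubmonoid.closure {p : ℕ × ℕ | ∃ a, D.A a ∧ p = (a, D.d - a)} := by
  constructor
  · rintro ⟨hx, hy, m, hm⟩
    induction m generalizing x y with
    | zero =>
      have hx0 : x = 0 := by omega
      have hy0 : y = 0 := by omega
      subst hx0 hy0
      exact AddSubmonoid.zero_mem _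
    | succ m ih =>
      obtain ⟨a, ha, h1, h2, h3, h4, h5⟩ := gen hx hy hm
      have : (x, y) = (a, D.d - a) + (x - a, y - (D.d - a)) := by
        rw [Prod.mk_add_mk, Prod.mk.injEq]
        omega
      rw [this]
      refine AddSubmonoid.add_mem _ (AddSubmonoid.subset_closure ⟨a, ha, rfl⟩) (ih h4 h5 ?_)
      have : (m + 1) * D.d = m * D.d + D.d := by ring
      omega
  · intro h
    have key : ∀ p ∈ AddSubmonoid.closure {p : ℕ × ℕ | ∃ a, D.A a ∧ p = (a, D.d - a)},
        D.S p.1 p.2 := by
      intro p hp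
      refine AddSubmonoid.closure_induction ?_ ?_ ?_ hp
      · rintro _ ⟨a, ha, rfl⟩
        exact S_A ha
      · exact S_zero
      · intro p q _ _ hp hq
        exact S_add hp hq
    exact key _ h

/-- **The socle.** -/
lemma soc_iff {x y : ℕ} (h : D.S x y) :
    (¬ D.J x y ∧ ∀ a, D.A a → D.J (x + a) (y + (D.d - a))) ↔ D.soc x y := by
  constructor
  · rintro ⟨h1, h2⟩
    rcases compl h h1 with h3 | ⟨f, hf, hx, hy, hlt, hT, hT'⟩
    · exact h3
    · exfalso
      obtain ⟨m, hm⟩ := h.2.2
      have hfF := le_F hf.1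
      have hd := D.d_eq
      have h2 := D.f1_le
      have h3 := D.NN
      have h4 := D.L_eq
      have h5 := D.N_eq
      have hm3 : m < 3 := by
        by_contra hc
        obtain ⟨m', rfl⟩ : ∃ m', m = m' + 3 := ⟨m - 3, by omega⟩
        have : (m' + 3) * D.d = m' * D.d + 3 * D.d := by ring
        omega
      obtain ⟨n, hn⟩ : ∃ n, (D.d + f - x) + (2 * D.d - f - y) = (n + 1) * D.d := by
        refine ⟨2 - m, ?_⟩
        interval_cases m <;> simp <;> omega
      obtain ⟨a, ha, g1, g2, g3, g4, g5⟩ := gen hT hT' hn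
      have hJ := h2
      have hJa := ‹∀ a, D.A a → D.J (x + a) (y + (D.d - a))› a ha
      have hS : D.S (D.d + f - x - a) (2 * D.d - f - y - (D.d - a)) := by
        refine ⟨g4, g5, n, ?_⟩
        have : (n + 1) * D.d = n * D.d + D.d := by ring
        omega
      have hfin := J_add hJa hS
      refine soc_not_J (D := D) (x := D.d + f) (y := 2 * D.d - f) ⟨f, hf, rfl, by omega⟩ ?_
      convert hfin using 1 <;> omega
  · intro h
    exact ⟨soc_not_J h, fun a ha => soc_mul h ha⟩

/-- `T` is generated by `A`. -/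
lemma closure_A : AddSubmonoid.closure {a | D.A a} = D.T := by
  apply le_antisymm
  · rw [AddSubmonoid.closure_le]
    rintro a (rfl | rfl | ha)
    · exact D.T.zero_mem
    · exact D.d_T
    · exact Y_T ha
  · intro x hx
    -- `(x, y) ∈ S` for a suitable `y`
    have hS : D.S x ((x + 1) * D.d - x) := by
      have h0 := D.d_pos
      have h1 : x ≤ x * D.d := Nat.le_mul_of_pos_right _ h0
      have h2 : (x + 1) * D.d = x * D.d + D.d := by ring
      exact ⟨hx, Or.inr (Or.inl (by omega)), x + 1, by omega⟩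
    rw [mem_closure] at hS
    have key : ∀ p ∈ AddSubmonoid.closure {p : ℕ × ℕ | ∃ a, D.A a ∧ p = (a, D.d - a)},
        p.1 ∈ AddSubmonoid.closure {a | D.A a} := by
      intro p hp
      refine AddSubmonoid.closure_induction ?_ ?_ ?_ hp
      · rintro _ ⟨a, ha, rfl⟩
        exact AddSubmonoid.subset_closure ha
      · exact AddSubmonoid.zero_mem _
      · intro p q _ _ hp hq
        exact AddSubmonoid.add_mem _ hp hq
    exact key _ hS

lemma A_le {a : ℕ} (ha : D.A a) : a ≤ D.d := by
  rcases ha with rfl | rfl | ha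
  · omega
  · exact le_rfl
  · have := Y_lt ha
    omega

end Data

/-- The data exist. -/
lemma exists_data (T : AddSubmonoid ℕ) (hT : ((T : Set ℕ)ᶜ).Finite) (h1 : 1 ∉ T) :
    ∃ D : Data, D.T = T := by
  classical
  have hne : hT.toFinset.Nonempty := ⟨1, by simpa using h1⟩
  obtain ⟨F, hF, hmax⟩ : ∃ F ∈ hT.toFinset, ∀ x ∈ hT.toFinset, x ≤ F :=
    ⟨hT.toFinset.max' hne, Finset.max'_mem _ _, fun x hx => Finset.le_max' _ _ hx⟩
  have hF1 : F ∉ T := by simpa using hF
  have hF2 : ∀ x, F < x → x ∈ T := by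
    intro x hx
    by_contra hc
    have := hmax x (by simpa using hc)
    omega
  have hPF : ∃ f, PFn T f := ⟨F, hF1, fun s _ hs => hF2 _ (by omega)⟩
  exact ⟨⟨T, F, hF1, hF2, Nat.find hPF, Nat.find_spec hPF, fun f hf => Nat.find_min' hPF hf⟩, rfl⟩

end Pool.Agent.R942.MC
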