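import Mathlib

/-!
# Projective monomial curves: definitions (MP_4f2529_ag)
-/

set_option autoImplicit false

namespace Pool.Agent.R942.MC

open MvPolynomial

/-- A projective monomial curve, given by its sequence of degrees `0 = a_0 < a_1 < ... < a_n = d`,
`n ≥ 1`, with greatest common divisor `1`. -/
structure MonomialCurve where
  /-- the dimension of the projective space -/
  n : ℕ
  one_le : 1 ≤ n
  /-- the degrees -/
  a : Fin (n + 1) → ℕ
  strictMono : StrictMono a
  a_zero : a 0 = 0
  gcd_eq_one : Finset.univ.gcd a = 1

namespace MonomialCurve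

variable (C : MonomialCurve)

/-- The degree `d = a_n` of the curve. -/
def d : ℕ := C.a (Fin.last C.n)

/-- The numerical semigroup `S_C` generated by `a_1, ..., a_n`. -/
def semigroup : AddSubmonoid ℕ := AddSubmonoid.closure (Set.range C.a)

/-- The homogeneous coordinate ring `k[C] = k[u^{a_i} v^{d - a_i} : 0 ≤ i ≤ n] ⊆ k[u, v]`;
`u` is the variable `X 0` and `v` is the variable `X 1`. -/
noncomputable def coordRing (k : Type*) [Field k] : Subalgebra k (MvPolynomial (Fin 2) k) :=
  Algebra.adjoin k (Set.range fun i => X 0 ^ C.a i * X 1 ^ (C.d - C.a i))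

/-- The coordinate ring `k[C]` as a type. -/
def Coord (k : Type*) [Field k] : Type _ := C.coordRing k

noncomputable instance (k : Type*) [Field k] : CommRing (C.Coord k) :=
  inferInstanceAs (CommRing (C.coordRing k))

noncomputable instance (k : Type*) [Field k] : Algebra k (C.Coord k) :=
  inferInstanceAs (Algebra k (C.coordRing k))

/-- The coordinate function `x_i = u^{a_i} v^{d - a_i}` in `k[C]`. -/
noncomputable def x (k : Type*) [Field k] (i : Fin (C.n + 1)) : C.Coord k :=
  (⟨X 0 ^ C.a i * X 1 ^ (C.d - C.a i), Algebra.subset_adjoin ⟨i, rfl⟩⟩ : C.coordRing k)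

/-- The curve is arithmetically Cohen-Macaulay over `k`: the homogeneous system of parameters
`x_0 = v^d`, `x_n = u^d` of the two-dimensional ring `k[C]` is a regular sequence. -/
def IsACM (k : Type*) [Field k] : Prop :=
  RingTheory.Sequence.IsRegular (C.Coord k) [C.x k 0, C.x k (Fin.last C.n)]

/-- The Artinian reduction `k[C] / (x_0, x_n)`. -/
def Reduction (k : Type*) [Field k] : Type _ :=
  C.Coord k ⧸ Ideal.span {C.x k 0, C.x k (Fin.last C.n)}

noncomputable instance (k : Type*) [Field k] : CommRing (C.Reduction k) :=
  inferInstanceAs (CommRing (C.Coord k ⧸ Ideal.span {C.x k 0, C.x k (Fin.last C.n)}))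

noncomputable instance (k : Type*) [Field k] : Algebra k (C.Reduction k) :=
  inferInstanceAs (Algebra k (C.Coord k ⧸ Ideal.span {C.x k 0, C.x k (Fin.last C.n)}))

/-- The class of `x_i` in the Artinian reduction. -/
noncomputable def xbar (k : Type*) [Field k] (i : Fin (C.n + 1)) : C.Reduction k :=
  Ideal.Quotient.mk (Ideal.span {C.x k 0, C.x k (Fin.last C.n)}) (C.x k i)

/-- The socle of the Artinian reduction: the elements annihilated by (multiplication by) all `x_i`. -/
noncomputable def socle (k : Type*) [Field k] : Submodule k (C.Reduction k) :=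
  ⨅ i, LinearMap.ker (LinearMap.mulLeft k (C.xbar k i))

/-- The Cohen-Macaulay type of `k[C]` (for an arithmetically Cohen-Macaulay curve): the dimension of
the socle of the Artinian reduction, which is the rank of the last free module in the minimal graded
free resolution of `k[C]` over `k[x_0, ..., x_n]`. -/
noncomputable def cmType (k : Type*) [Field k] : ℕ := Module.finrank k (C.socle k)

end MonomialCurve

/-- The pseudo-Frobenius numbers of a numerical semigroup `T`: the integers `x` which are not in `T`
such that `x + s ∈ T` for all `s ∈ T`, `s ≠ 0`. -/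
def pseudoFrobenius (T : AddSubmonoid ℕ) : Set ℤ :=
  {x | (¬ ∃ n ∈ T, (n : ℤ) = x) ∧ ∀ s ∈ T, s ≠ 0 → ∃ n ∈ T, (n : ℤ) = x + s}

/-- The type of a numerical semigroup: the number of pseudo-Frobenius numbers. -/
noncomputable def type (T : AddSubmonoid ℕ) : ℕ := (pseudoFrobenius T).ncard

end Pool.Agent.R942.MC
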