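import Mathlib
import Pool.Agent.R942.MC.Comb
import Pool.Agent.R942.MC.Defs

/-!
# The coordinate ring of the constructed curve
-/

set_option autoImplicit false

namespace Pool.Agent.R942.MC

open MvPolynomial

/-- The coordinate function `x_i` as an element of the subalgebra. -/
noncomputable def MonomialCurve.xr (C : MonomialCurve) (k : Type*) [Field k] (i : Fin (C.n + 1)) :
    C.coordRing k :=
  ⟨X 0 ^ C.a i * X 1 ^ (C.d - C.a i), Algebra.subset_adjoin ⟨i, rfl⟩⟩

/-- exponents of `u^x v^y` -/
noncomputable def ex (x y : ℕ) : Fin 2 →₀ ℕ := Finsupp.single 0 x + Finsupp.single 1 y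

@[simp] lemma ex_zero (x y : ℕ) : ex x y 0 = x := by simp [ex]
@[simp] lemma ex_one (x y : ℕ) : ex x y 1 = y := by simp [ex]

lemma ex_eta (m : Fin 2 →₀ ℕ) : ex (m 0) (m 1) = m := by
  ext i
  fin_cases i <;> simp

lemma ex_add (x y x' y' : ℕ) : ex x y + ex x' y' = ex (x + x') (y + y') := by
  ext i
  fin_cases i <;> simp

lemma ex_le {x y : ℕ} {m : Fin 2 →₀ ℕ} : ex x y ≤ m ↔ x ≤ m 0 ∧ y ≤ m 1 := by
  rw [Finsupp.le_def]
  simp [Fin.forall_fin_two]

/-- the curve realizes the data -/
structure Realizes (C : MonomialCurve) (D : Data) : Prop where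
  mem : ∀ a, D.A a ↔ a ∈ Set.range C.a
  d : C.d = D.d

variable {C : MonomialCurve} {D : Data} (h : Realizes C D) {k : Type*} [Field k]

include h

/-- the support of the elements of the coordinate ring -/
lemma mem_coordRing (f : MvPolynomial (Fin 2) k) :
    f ∈ C.coordRing k ↔ ∀ m ∈ f.support, D.S (m 0) (m 1) := by
  classical
  constructor
  · intro hf
    refine Algebra.adjoin_induction (p := fun f _ => ∀ m ∈ f.support, D.S (m 0) (m 1))
      ?_ ?_ ?_ ?_ hf
    · rintro _ ⟨i, rfl⟩ m hm
      have h1 : (X 0 ^ C.a i * X 1 ^ (C.d - C.a i) : MvPolynomial (Fin 2) k) =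
          monomial (ex (C.a i) (C.d - C.a i)) 1 := by
        rw [X_pow_eq_monomial, X_pow_eq_monomial, monomial_mul, one_mul]
        rfl
      simp only [h1] at hm
      have := support_monomial_subset hm
      rw [Finset.mem_singleton] at this
      subst this
      rw [ex_zero, ex_one, h.d]
      exact Data.S_A ((h.mem _).2 ⟨i, rfl⟩)
    · intro c m hm
      rw [algebraMap_eq, C_apply] at hm
      have := support_monomial_subset hm
      rw [Finset.mem_singleton] at this
      subst this
      exact Data.S_zero
    · intro f g _ _ hf hg m hm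
      rcases Finset.mem_union.1 (support_add hm) with h | h
      · exact hf m h
      · exact hg m h
    · intro f g _ _ hf hg m hm
      have := support_mul f g hm
      rw [Finset.mem_add] at this
      obtain ⟨m1, h1, m2, h2, rfl⟩ := this
      exact Data.S_add (hf m1 h1) (hg m2 h2)
  · intro hf
    rw [f.as_sum]
    refine Subalgebra.sum_mem _ fun m hm => ?_
    have key : ∀ p ∈ AddSubmonoid.closure {p : ℕ × ℕ | ∃ a, D.A a ∧ p = (a, D.d - a)},
        (monomial (ex p.1 p.2) 1 : MvPolynomial (Fin 2) k) ∈ C.coordRing k := by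
      intro p hp
      refine AddSubmonoid.closure_induction ?_ ?_ ?_ hp
      · rintro _ ⟨a, ha, rfl⟩
        obtain ⟨i, rfl⟩ := (h.mem a).1 ha
        refine Algebra.subset_adjoin ⟨i, ?_⟩
        simp only [h.d]
        rw [X_pow_eq_monomial, X_pow_eq_monomial, monomial_mul, one_mul]
        rfl
      · have : ex 0 0 = 0 := by ext i; fin_cases i <;> simp
        simp only [Prod.fst_zero, Prod.snd_zero, this]
        exact Subalgebra.one_mem _
      · intro p q _ _ hp hq
        have := Subalgebra.mul_mem _ hp hq
        rwa [monomial_mul, ex_add, one_mul] at this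
    have h1 := key _ (Data.mem_closure.1 (hf m hm))
    simp only [ex_eta] at h1
    have h2 : monomial m (coeff m f) = coeff m f • monomial m (1 : k) := by
      rw [smul_monomial, smul_eq_mul, mul_one]
    rw [h2]
    exact Subalgebra.smul_mem _ h1 _

omit h in
/-- division by a monomial -/
lemma exists_mul {f : MvPolynomial (Fin 2) k} {s : Fin 2 →₀ ℕ} (hs : ∀ m ∈ f.support, s ≤ m) :
    ∃ g : MvPolynomial (Fin 2) k, f = monomial s 1 * g ∧ ∀ m ∈ g.support, s + m ∈ f.support := by
  refine ⟨f.divMonomial s, ?_, ?_⟩
  · ext m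
    rw [coeff_monomial_mul']
    split_ifs with hle
    · rw [one_mul, coeff_divMonomial, add_tsub_cancel_of_le hle]
    · by_contra hc
      exact hle (hs m (mem_support_iff.2 hc))
  · intro m hm
    rw [mem_support_iff, coeff_divMonomial] at hm
    exact mem_support_iff.2 hm

lemma x_zero : ((C.xr k 0 : C.coordRing k) : MvPolynomial (Fin 2) k) = monomial (ex 0 D.d) 1 := by
  have : C.a 0 = 0 := C.a_zero
  simp only [MonomialCurve.xr, this, h.d]
  rw [pow_zero, one_mul, Nat.sub_zero, X_pow_eq_monomial, ex]
  simp

lemma x_last : ((C.xr k (Fin.last C.n) : C.coordRing k) : MvPolynomial (Fin 2) k) =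
    monomial (ex D.d 0) 1 := by
  have : C.a (Fin.last C.n) = D.d := h.d
  simp only [MonomialCurve.xr, this, h.d]
  rw [Nat.sub_self, pow_zero, mul_one, X_pow_eq_monomial, ex]
  simp

lemma x_gen (i : Fin (C.n + 1)) : ((C.xr k i : C.coordRing k) : MvPolynomial (Fin 2) k) =
    monomial (ex (C.a i) (D.d - C.a i)) 1 := by
  simp only [MonomialCurve.xr, h.d]
  rw [X_pow_eq_monomial, X_pow_eq_monomial, monomial_mul, one_mul]
  rfl

omit h in
lemma coeff_ex_mul {x y : ℕ} (f : MvPolynomial (Fin 2) k) (m : Fin 2 →₀ ℕ) :
    coeff (ex x y + m) (monomial (ex x y) 1 * f) = coeff m f := by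
  rw [coeff_monomial_mul, one_mul]

/-- the ideal `(x_0, x_n)` -/
lemma mem_ideal (r : C.coordRing k) :
    r ∈ Ideal.span {C.xr k 0, C.xr k (Fin.last C.n)} ↔
      ∀ m ∈ (r : MvPolynomial (Fin 2) k).support, D.J (m 0) (m 1) := by
  classical
  constructor
  · intro hr m hm
    rw [Ideal.mem_span_pair] at hr
    obtain ⟨α, β, rfl⟩ := hr
    rw [Subalgebra.coe_add, Subalgebra.coe_mul, Subalgebra.coe_mul, x_zero h, x_last h] at hm
    rcases Finset.mem_union.1 (support_add hm) with h1 | h1
    · have := support_mul _ _ h1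
      rw [Finset.mem_add] at this
      obtain ⟨m1, hm1, m2, hm2, rfl⟩ := this
      have h3 := support_monomial_subset hm2
      rw [Finset.mem_singleton] at h3
      subst h3
      left
      have h4 := (mem_coordRing h _).1 α.2 m1 hm1
      simp only [Finsupp.add_apply, ex_zero, ex_one]
      refine ⟨by omega, ?_⟩
      rwa [Nat.add_sub_cancel, add_zero]
    · have := support_mul _ _ h1
      rw [Finset.mem_add] at this
      obtain ⟨m1, hm1, m2, hm2, rfl⟩ := this
      have h3 := support_monomial_subset hm2
      rw [Finset.mem_singleton] at h3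
      subst h3
      right
      have h4 := (mem_coordRing h _).1 β.2 m1 hm1
      simp only [Finsupp.add_apply, ex_zero, ex_one]
      refine ⟨by omega, ?_⟩
      rwa [Nat.add_sub_cancel, add_zero]
  · intro hr
    -- the set of all `f` that are in the ideal
    let I : Submodule k (C.coordRing k) :=
      (Ideal.span {C.xr k 0, C.xr k (Fin.last C.n)}).restrictScalars k
    have key : (r : MvPolynomial (Fin 2) k) ∈ I.map (C.coordRing k).val.toLinearMap := by
      rw [(r : MvPolynomial (Fin 2) k).as_sum]
      refine Submodule.sum_mem _ fun m hm => ?_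
      rcases hr m hm with ⟨h1, h2⟩ | ⟨h1, h2⟩
      · have hmem : (monomial (ex (m 0) (m 1 - D.d)) (coeff m (r : MvPolynomial (Fin 2) k)) :
            MvPolynomial (Fin 2) k) ∈ C.coordRing k := by
          rw [mem_coordRing h]
          intro m' hm'
          have := support_monomial_subset hm'
          rw [Finset.mem_singleton] at this
          subst this
          simpa using h2
        refine ⟨⟨_, hmem⟩ * C.xr k 0, ?_, ?_⟩
        · exact Ideal.mul_mem_left _ _ (Ideal.subset_span (by simp))
        · have : (C.coordRing k).val.toLinearMap (⟨_, hmem⟩ * C.xr k 0) =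
              monomial (ex (m 0) (m 1 - D.d)) (coeff m (r : MvPolynomial (Fin 2) k)) *
                (C.xr k 0 : MvPolynomial (Fin 2) k) := rfl
          rw [this, x_zero h, monomial_mul, ex_add, mul_one]
          congr 2
          rw [add_zero, Nat.sub_add_cancel h1, ex_eta]
      · have hmem : (monomial (ex (m 0 - D.d) (m 1)) (coeff m (r : MvPolynomial (Fin 2) k)) :
            MvPolynomial (Fin 2) k) ∈ C.coordRing k := by
          rw [mem_coordRing h]
          intro m' hm'
          have := support_monomial_subset hm'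
          rw [Finset.mem_singleton] at this
          subst this
          simpa using h2
        refine ⟨⟨_, hmem⟩ * C.xr k (Fin.last C.n), ?_, ?_⟩
        · exact Ideal.mul_mem_left _ _ (Ideal.subset_span (by simp))
        · have : (C.coordRing k).val.toLinearMap (⟨_, hmem⟩ * C.xr k (Fin.last C.n)) =
              monomial (ex (m 0 - D.d) (m 1)) (coeff m (r : MvPolynomial (Fin 2) k)) *
                (C.xr k (Fin.last C.n) : MvPolynomial (Fin 2) k) := rfl
          rw [this, x_last h, monomial_mul, ex_add, mul_one]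
          congr 2
          rw [add_zero, Nat.sub_add_cancel h1, ex_eta]
    obtain ⟨r', hr', he⟩ := key
    have : r' = r := Subtype.ext he
    exact this ▸ hr'

/-- **The curve is arithmetically Cohen-Macaulay.** -/
lemma isACM' : RingTheory.Sequence.IsRegular (C.coordRing k)
    [C.xr k 0, C.xr k (Fin.last C.n)] := by
  classical
  have hd := D.d_pos
  have h0 : (monomial (ex 0 D.d) 1 : MvPolynomial (Fin 2) k) ≠ 0 := by
    rw [Ne, monomial_eq_zero]; exact one_ne_zero
  rw [RingTheory.Sequence.isRegular_cons_iff,
    RingTheory.Sequence.isRegular_iff]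
  refine ⟨?_, ?_, ?_⟩
  · intro f g hfg
    apply Subtype.ext
    have h1 : (C.xr k 0 : MvPolynomial (Fin 2) k) * f = (C.xr k 0 : MvPolynomial (Fin 2) k) * g :=
      congrArg Subtype.val hfg
    rw [x_zero h] at h1
    exact mul_left_cancel₀ h0 h1
  · rw [RingTheory.Sequence.isWeaklyRegular_cons_iff]
    refine ⟨?_, RingTheory.Sequence.IsWeaklyRegular.nil _ _⟩
    rw [isSMulRegular_iff_right_eq_zero_of_smul]
    intro q hq
    obtain ⟨f, rfl⟩ := Submodule.mkQ_surjective _ q
    rw [Submodule.mkQ_apply, ← Submodule.Quotient.mk_smul, Submodule.Quotient.mk_eq_zero,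
      Submodule.mem_smul_pointwise_iff_exists] at hq
    obtain ⟨g, -, hg⟩ := hq
    rw [Submodule.mkQ_apply, Submodule.Quotient.mk_eq_zero,
      Submodule.mem_smul_pointwise_iff_exists]
    have h1 : (C.xr k 0 : MvPolynomial (Fin 2) k) * g =
        (C.xr k (Fin.last C.n) : MvPolynomial (Fin 2) k) * f := congrArg Subtype.val hg
    rw [x_zero h, x_last h] at h1
    -- exponents
    have key : ∀ m ∈ (f : MvPolynomial (Fin 2) k).support, D.d ≤ m 1 ∧ D.S (m 0) (m 1 - D.d) := by
      intro m hm
      have h2 : coeff (ex D.d 0 + m) (monomial (ex D.d 0) 1 * (f : MvPolynomial (Fin 2) k)) ≠ 0 := by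
        rw [coeff_ex_mul]; exact mem_support_iff.1 hm
      rw [← h1, coeff_monomial_mul'] at h2
      split_ifs at h2 with hle
      · rw [one_mul] at h2
        have h3 := (mem_coordRing h _).1 g.2 _ (mem_support_iff.2 h2)
        have h4 := (mem_coordRing h _).1 f.2 _ hm
        rw [ex_le] at hle
        simp only [Finsupp.add_apply, ex_zero, ex_one, Finsupp.tsub_apply] at hle h3
        refine ⟨by omega, h4.1, ?_, ?_⟩
        · have := h3.2.1
          rwa [zero_add] at this
        · obtain ⟨n, hn⟩ := h4.2.2
          rcases n with _ | n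
          · omega
          · refine ⟨n, ?_⟩
            have : (n + 1) * D.d = n * D.d + D.d := by ring
            omega
      · exact absurd rfl h2
    obtain ⟨g', hg', hs⟩ := exists_mul (f := (f : MvPolynomial (Fin 2) k)) (s := ex 0 D.d)
      (fun m hm => ex_le.2 ⟨Nat.zero_le _, (key m hm).1⟩)
    have hgm : g' ∈ C.coordRing k := by
      rw [mem_coordRing h]
      intro m hm
      have := (key _ (hs m hm)).2
      simpa [Finsupp.add_apply] using this
    refine ⟨⟨g', hgm⟩, trivial, ?_⟩
    apply Subtype.ext
    have : ((C.xr k 0 • (⟨g', hgm⟩ : C.coordRing k) : C.coordRing k) : MvPolynomial (Fin 2) k) =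
      (C.xr k 0 : MvPolynomial (Fin 2) k) * g' := rfl
    rw [this, x_zero h, ← hg']
  · -- the quotient is not zero
    intro htop
    have h1 : (⊤ : Submodule (C.coordRing k) (C.coordRing k)) =
        Ideal.ofList [C.xr k 0, C.xr k (Fin.last C.n)] • ⊤ := by
      rw [Submodule.top_eq_ofList_cons_smul_iff]
      exact htop
    have h2 : (1 : C.coordRing k) ∈ Ideal.span {C.xr k 0, C.xr k (Fin.last C.n)} := by
      have h3 : (1 : C.coordRing k) ∈ (⊤ : Submodule (C.coordRing k) (C.coordRing k)) := trivial
      rw [h1] at h3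
      have h4 : Ideal.ofList [C.xr k 0, C.xr k (Fin.last C.n)] • (⊤ : Submodule (C.coordRing k)
          (C.coordRing k)) = Ideal.span {C.xr k 0, C.xr k (Fin.last C.n)} := by
        rw [Ideal.ofList_cons, Ideal.ofList_singleton, smul_eq_mul, Ideal.mul_top,
          ← Ideal.span_union]
        rfl
      rwa [h4] at h3
    have h5 := (mem_ideal h _).1 h2 0 (by
      rw [mem_support_iff]
      change coeff 0 (1 : MvPolynomial (Fin 2) k) ≠ 0
      rw [coeff_zero_one]; exact one_ne_zero)
    rcases h5 with ⟨h5, _⟩ | ⟨h5, _⟩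
    · simp at h5; omega
    · simp at h5; omega

lemma isACM : C.IsACM k := isACM' h

end Pool.Agent.R942.MC
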