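import Mathlib
import Pool.Agent.R942.MC.Ring

/-!
# The socle of the Artinian reduction of the constructed curve
-/

set_option autoImplicit false

namespace Pool.Agent.R942.MC

open MvPolynomial

/-- The Artinian reduction, in terms of the subalgebra. -/
abbrev MonomialCurve.Red (C : MonomialCurve) (k : Type*) [Field k] : Type _ :=
  C.coordRing k ⧸ Ideal.span {C.xr k 0, C.xr k (Fin.last C.n)}

/-- The socle, in terms of the subalgebra. -/
noncomputable def MonomialCurve.soc' (C : MonomialCurve) (k : Type*) [Field k] :
    Submodule k (C.Red k) :=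
  ⨅ i, LinearMap.ker (LinearMap.mulLeft k (Ideal.Quotient.mk _ (C.xr k i) : C.Red k))

variable {C : MonomialCurve} {D : Data} (h : Realizes C D) {k : Type*} [Field k]

include h

omit h in
lemma mem_socle (q : C.Red k) : q ∈ C.soc' k ↔
    ∀ i, Ideal.Quotient.mk (Ideal.span {C.xr k 0, C.xr k (Fin.last C.n)}) (C.xr k i) * q = 0 := by
  rw [MonomialCurve.soc', Submodule.mem_iInf]
  rfl

lemma mono_mem {x y : ℕ} (hS : D.S x y) (c : k) :
    (monomial (ex x y) c : MvPolynomial (Fin 2) k) ∈ C.coordRing k := by
  rw [mem_coordRing h]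
  intro m hm
  have := support_monomial_subset hm
  rw [Finset.mem_singleton] at this
  subst this
  simpa using hS

/-- pseudo-Frobenius numbers as a type -/
abbrev PF (D : Data) : Type := {f : ℕ // PFn D.T f}

omit h in
lemma pf_soc (f : PF D) : D.soc (D.d + f.1) (2 * D.d - f.1) := by
  have h1 := D.d_eq
  have h2 := D.f1_le
  have h3 := D.NN
  have h4 := D.L_eq
  have h5 := D.N_eq
  have := Data.le_F f.2.1
  exact ⟨f.1, f.2, rfl, by omega⟩

/-- the elements of the socle -/
noncomputable def b (f : PF D) : C.Red k :=
  Ideal.Quotient.mk _ ⟨monomial (ex (D.d + f.1) (2 * D.d - f.1)) 1,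
    mono_mem h (Data.soc_S (pf_soc f)) 1⟩

lemma b_mem (f : PF D) : b h (k := k) f ∈ C.soc' k := by
  classical
  rw [mem_socle]
  intro i
  rw [b, ← map_mul, Ideal.Quotient.eq_zero_iff_mem, mem_ideal h]
  intro m hm
  rw [Subalgebra.coe_mul, x_gen h, monomial_mul, ex_add] at hm
  have := support_monomial_subset hm
  rw [Finset.mem_singleton] at this
  subst this
  rw [ex_zero, ex_one]
  have := Data.soc_mul (pf_soc f) ((h.mem (C.a i)).2 ⟨i, rfl⟩)
  rwa [add_comm (D.d + f.1), add_comm (2 * D.d - f.1)] at this

lemma b_indep : LinearIndependent k (b h (k := k)) := by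
  classical
  rw [linearIndependent_iff']
  intro s g hg f hf
  by_contra hne
  have h1 : (∑ i ∈ s, g i • b h (k := k) i) = Ideal.Quotient.mk _
      (∑ i ∈ s, g i • (⟨monomial (ex (D.d + i.1) (2 * D.d - i.1)) 1,
        mono_mem h (Data.soc_S (pf_soc i)) 1⟩ : C.coordRing k)) := by
    rw [map_sum]
    rfl
  rw [h1, Ideal.Quotient.eq_zero_iff_mem, mem_ideal h] at hg
  refine Data.soc_not_J (pf_soc f) ?_
  have h2 := hg (ex (D.d + f.1) (2 * D.d - f.1)) ?_
  · simpa using h2
  · rw [mem_support_iff, AddSubmonoidClass.coe_finsetSum, coeff_sum]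
    rw [Finset.sum_eq_single f]
    · rw [Subalgebra.coe_smul, coeff_smul, coeff_monomial, if_pos rfl, smul_eq_mul, mul_one]
      exact hne
    · intro i _ hi
      rw [Subalgebra.coe_smul, coeff_smul, coeff_monomial, if_neg, smul_zero]
      intro he
      apply hi
      have := congrArg (fun m : Fin 2 →₀ ℕ => m 0) he
      simp only [ex_zero] at this
      exact Subtype.ext (by omega)
    · intro hh
      exact absurd hf hh

lemma socle_le : C.soc' k ≤ Submodule.span k (Set.range (b h (k := k))) := by
  classical
  intro q hq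
  obtain ⟨r, rfl⟩ := Ideal.Quotient.mk_surjective q
  rw [mem_socle] at hq
  let I : Ideal (C.coordRing k) := Ideal.span {C.xr k 0, C.xr k (Fin.last C.n)}
  let M : Submodule k (C.coordRing k) :=
    (Submodule.span k (Set.range (b h (k := k)))).comap (Ideal.Quotient.mkₐ k I).toLinearMap
  have key : (r : MvPolynomial (Fin 2) k) ∈ M.map (C.coordRing k).val.toLinearMap := by
    rw [(r : MvPolynomial (Fin 2) k).as_sum]
    refine Submodule.sum_mem _ fun m hm => ?_
    have hS := (mem_coordRing h _).1 r.2 m hm
    have hmem := mono_mem h hS (coeff m (r : MvPolynomial (Fin 2) k))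
    refine ⟨⟨_, hmem⟩, ?_, ?_⟩
    · rw [SetLike.mem_coe, Submodule.mem_comap]
      change Ideal.Quotient.mk I ⟨_, hmem⟩ ∈ _
      by_cases hJ : D.J (m 0) (m 1)
      · have : Ideal.Quotient.mk I ⟨_, hmem⟩ = 0 := by
          rw [Ideal.Quotient.eq_zero_iff_mem, mem_ideal h]
          intro m' hm'
          have := support_monomial_subset hm'
          rw [Finset.mem_singleton] at this
          subst this
          simpa using hJ
        rw [this]
        exact Submodule.zero_mem _
      · -- the monomial is in the socle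
        have hsoc : D.soc (m 0) (m 1) := by
          refine (Data.soc_iff hS).1 ⟨hJ, fun a ha => ?_⟩
          obtain ⟨i, rfl⟩ := (h.mem a).1 ha
          have h1 := hq i
          rw [← map_mul, Ideal.Quotient.eq_zero_iff_mem, mem_ideal h] at h1
          have h2 := h1 (ex (C.a i) (D.d - C.a i) + m) (by
            rw [mem_support_iff, Subalgebra.coe_mul, x_gen h, coeff_ex_mul]
            exact mem_support_iff.1 hm)
          rw [Finsupp.add_apply, Finsupp.add_apply, ex_zero, ex_one] at h2
          rwa [add_comm (m 0), add_comm (m 1)]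
        obtain ⟨f, hf, h0, h1⟩ := hsoc
        have heq : Ideal.Quotient.mk I ⟨_, hmem⟩ =
            coeff m (r : MvPolynomial (Fin 2) k) • b h (k := k) ⟨f, hf⟩ := by
          change _ = coeff m (r : MvPolynomial (Fin 2) k) • Ideal.Quotient.mk I _
          rw [← Ideal.Quotient.mkₐ_eq_mk k, ← map_smul]
          congr 1
          apply Subtype.ext
          rw [Subalgebra.coe_smul, smul_monomial, smul_eq_mul, mul_one]
          have e0 : ex (m 0) (m 1) = ex (D.d + f) (2 * D.d - f) := by
            rw [h0, show m 1 = 2 * D.d - f by omega]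
          exact congrArg (fun e => monomial e (coeff m (r : MvPolynomial (Fin 2) k))) e0
        rw [heq]
        exact Submodule.smul_mem _ _ (Submodule.subset_span ⟨_, rfl⟩)
    · change monomial (ex (m 0) (m 1)) _ = _
      rw [ex_eta]
  obtain ⟨r', hr', he⟩ := key
  have : r' = r := Subtype.ext he
  exact this ▸ hr'

omit h in
instance : Finite (PF D) := by
  refine Set.Finite.subset (Set.finite_Iic D.F) (fun f hf => ?_) |>.to_subtype
  exact Data.le_F (show PFn D.T f from hf).1

/-- **The Cohen-Macaulay type.** -/
lemma cmType_eq' : Module.finrank k (C.soc' k) = Nat.card (PF D) := by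
  classical
  have : Fintype (PF D) := Fintype.ofFinite _
  have h1 : C.soc' k = Submodule.span k (Set.range (b h (k := k))) := by
    apply le_antisymm (socle_le h)
    rw [Submodule.span_le]
    rintro _ ⟨f, rfl⟩
    exact b_mem h f
  rw [h1, finrank_span_eq_card (b_indep h), Nat.card_eq_fintype_card]

lemma cmType_eq : C.cmType k = Nat.card (PF D) := cmType_eq' h

end Pool.Agent.R942.MC
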