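import Mathlib
import Pool.Agent.R942.MC.Socle

/-!
# MP_4f2529_ag: the final assembly
-/

set_option autoImplicit false

namespace Pool.Agent.R942.MC

variable (D : Data)

lemma finite_A : {a | D.A a}.Finite :=
  Set.Finite.subset (Set.finite_Iic D.d) fun _ ha => Data.A_le ha

/-- the curve -/
lemma exists_curve : ∃ C : MonomialCurve, Realizes C D := by
  classical
  obtain ⟨s, hs⟩ : ∃ s : Finset ℕ, ∀ a, a ∈ s ↔ D.A a :=
    ⟨(finite_A D).toFinset, fun a => by simp⟩
  have hd := D.d_pos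
  have h0 : 0 ∈ s := (hs 0).2 (Or.inl rfl)
  have hdm : D.d ∈ s := (hs _).2 (Or.inr (Or.inl rfl))
  have hcard : 1 < s.card := Finset.one_lt_card.2 ⟨0, h0, D.d, hdm, by omega⟩
  obtain ⟨n, hn⟩ : ∃ n, s.card = n + 1 := ⟨s.card - 1, by omega⟩
  have hrange : Set.range (s.orderEmbOfFin hn) = s := Finset.range_orderEmbOfFin s hn
  have hT : AddSubmonoid.closure (Set.range (s.orderEmbOfFin hn)) = D.T := by
    rw [hrange, ← Data.closure_A]
    congr 1
    ext a
    exact hs a
  refine ⟨⟨n, by omega, s.orderEmbOfFin hn, (s.orderEmbOfFin hn).strictMono, ?_, ?_⟩, ?_, ?_⟩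
  · have h1 := Finset.orderEmbOfFin_zero hn (by omega)
    have h2 : (⟨0, by omega⟩ : Fin (n + 1)) = 0 := rfl
    rw [h2] at h1
    rw [h1]
    exact Nat.le_zero.1 (Finset.min'_le s 0 h0)
  · -- the greatest common divisor
    set g := Finset.univ.gcd (s.orderEmbOfFin hn) with hg
    have hdiv : ∀ x ∈ D.T, g ∣ x := by
      intro x hx
      rw [← hT] at hx
      refine AddSubmonoid.closure_induction (motive := fun x _ => g ∣ x) ?_ ?_ ?_ hx
      · rintro _ ⟨i, rfl⟩
        exact Finset.gcd_dvd (Finset.mem_univ i)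
      · exact dvd_zero _
      · intro x y _ _ h1 h2
        exact dvd_add h1 h2
    have h1 := hdiv (D.F + 1) (D.hF' _ (by omega))
    have h2 := hdiv (D.F + 1 + 1) (D.hF' _ (by omega))
    have h3 := (Nat.dvd_add_right h1).1 h2
    exact Nat.dvd_one.1 h3
  · intro a
    change D.A a ↔ a ∈ Set.range (s.orderEmbOfFin hn)
    rw [hrange, Finset.mem_coe, hs]
  · change (s.orderEmbOfFin hn) (Fin.last n) = D.d
    have h1 := Finset.orderEmbOfFin_last hn (by omega)
    have h2 : (⟨n + 1 - 1, by omega⟩ : Fin (n + 1)) = Fin.last n := rfl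
    rw [h2] at h1
    rw [h1]
    apply le_antisymm
    · exact Finset.max'_le _ _ _ fun a ha => Data.A_le ((hs a).1 ha)
    · exact Finset.le_max' _ _ hdm

variable {D}

lemma semigroup_eq {C : MonomialCurve} (h : Realizes C D) : C.semigroup = D.T := by
  rw [MonomialCurve.semigroup, ← Data.closure_A]
  congr 1
  ext a
  exact (h.mem a).symm

lemma pseudoFrobenius_eq (T : AddSubmonoid ℕ) (hT : ((T : Set ℕ)ᶜ).Finite) (h1 : 1 ∉ T) :
    pseudoFrobenius T = (fun n : ℕ => (n : ℤ)) '' {f | PFn T f} := by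
  ext x
  constructor
  · rintro ⟨hx, hs⟩
    -- `x` is not negative
    obtain ⟨D, rfl⟩ := exists_data T hT h1
    rcases le_or_gt 0 x with h0 | h0
    · obtain ⟨n, rfl⟩ := Int.eq_ofNat_of_zero_le h0
      refine ⟨n, ⟨fun hn => hx ⟨n, hn, rfl⟩, fun s hsT hs0 => ?_⟩, rfl⟩
      obtain ⟨m, hm, he⟩ := hs s hsT hs0
      have : m = n + s := by exact_mod_cast he
      exact this ▸ hm
    · exfalso
      obtain ⟨y, hy⟩ : ∃ y : ℕ, x = -(y : ℤ) := ⟨x.natAbs, by omega⟩
      subst hy
      -- iterate: `F` and `F - y`... use that `s ∈ T`, `s ≠ 0` implies `s - y ∈ T`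
      have hstep : ∀ s ∈ D.T, s ≠ 0 → y ≤ s ∧ s - y ∈ D.T := by
        intro s hsT hs0
        obtain ⟨m, hm, he⟩ := hs s hsT hs0
        refine ⟨by omega, ?_⟩
        have : m = s - y := by omega
        exact this ▸ hm
      have hy0 : 0 < y := by omega
      -- `F + y ∈ T` gives `F ∈ T`
      have h2 := hstep (D.F + y) (D.hF' _ (by omega)) (by omega)
      rw [Nat.add_sub_cancel] at h2
      exact D.hF h2.2
  · rintro ⟨f, ⟨hf, hs⟩, rfl⟩
    refine ⟨?_, fun s hsT hs0 => ⟨f + s, hs s hsT hs0, by push_cast; rfl⟩⟩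
    rintro ⟨n, hn, he⟩
    have he' : (n : ℤ) = (f : ℤ) := he
    have : n = f := by exact_mod_cast he'
    exact hf (this ▸ hn)

lemma type_eq : type D.T = Nat.card (PF D) := by
  have hfin : ((D.T : Set ℕ)ᶜ).Finite :=
    Set.Finite.subset (Set.finite_Iic D.F) fun x hx => Data.le_F hx
  have h1 : 1 ∉ D.T := by
    intro h1
    have : ∀ n, n ∈ D.T := by
      intro n
      have := D.T.nsmul_mem h1 n
      simpa using this
    exact D.hF (this _)
  rw [type, pseudoFrobenius_eq _ hfin h1,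
    Set.ncard_image_of_injective _ (fun a b h => by exact_mod_cast h)]
  rfl

lemma one_notMem_of_type (T : AddSubmonoid ℕ) (ht : 1 < type T) : 1 ∉ T := by
  intro h1
  have hall : ∀ n, n ∈ T := by
    intro n
    have := T.nsmul_mem h1 n
    simpa using this
  have hsub : pseudoFrobenius T ⊆ {-1} := by
    rintro x ⟨hx, hs⟩
    obtain ⟨m, _, he⟩ := hs 1 h1 one_ne_zero
    rw [Set.mem_singleton_iff]
    by_contra hne
    have h0 : 0 ≤ x := by
      have : (0 : ℤ) ≤ m := Int.natCast_nonneg m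
      push_cast at he
      omega
    obtain ⟨n, rfl⟩ := Int.eq_ofNat_of_zero_le h0
    exact hx ⟨n, hall n, rfl⟩
  have := Set.ncard_le_ncard hsub (Set.finite_singleton _)
  rw [Set.ncard_singleton] at this
  unfold type at ht
  omega

/-- **Main theorem.** -/
theorem main.{u} (T : AddSubmonoid ℕ) (hT : ((T : Set ℕ)ᶜ).Finite) (ht : 1 < type T) :
    ∃ C : MonomialCurve, C.semigroup = T ∧
      ∀ (k : Type u) [Field k], C.IsACM k ∧ C.cmType k = type T := by
  obtain ⟨D, rfl⟩ := exists_data T hT (one_notMem_of_type T ht)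
  obtain ⟨C, hC⟩ := exists_curve D
  refine ⟨C, semigroup_eq hC, fun k _ => ⟨isACM hC, ?_⟩⟩
  rw [cmType_eq hC, type_eq]

end Pool.Agent.R942.MC
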